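import Pool.Agent.H685IDS.Resid

set_option autoImplicit false

/-!
# MP_3a832c_nt: rational shifts, and a residual set of shifts for every rate of divergence

The inhomogeneous Duffin-Schaeffer problem with large residue sets has a positive answer for every
rational shift.  Moreover, for every prescribed rate of divergence `F → ∞`, however slow, it has a
positive answer for all shifts in a residual (comeagre) set that depends only on `F`, and explicitly for
all shifts that are very well approximable by rational numbers in terms of `F`, simultaneously for all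
`ψ` whose partial sums `∑_{q < N} φ(q) ψ(q) / q` are at least `F N` for all large `N`.

Idea.  Rational shifts: on the circle the set is `L(γ, ψ) = {y : ‖q y - γ‖ ≤ ψ(q) infinitely often}`;
multiplication by `k` maps `L(γ, ψ)` into `L(kγ, kψ)` and scaling the radii does not change the measure
(Cassels), which gives a zero-one law; the theorem of Koukoulopoulos and Maynard (proved in
`Pool.Agent.H560DS`, not assumed) for the denominators `s q` gives positive measure.
Uniformity: the functions `ψ` with values in `[0,1]` and rate at least `F - n` from `n` on form a compact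
set in the product topology, and the measure of a finite union of open sets `‖q y - γ‖ < ψ(q)` is lower
semicontinuous in `(ψ, γ)`, so by the tube lemma every rational shift has a neighbourhood in which all
these `ψ` cover most of the circle.
-/

namespace Pool.Agent.Results.MP_3a832c_nt.ResidualShifts

open MeasureTheory Filter

/-- Distance to the nearest integer. -/
noncomputable def nint (t : ℝ) : ℝ := |t - round t|

/-- The set `E_q` of the `x ∈ [0,1]` with `‖x - (a + γ) / q‖ ≤ ψ(q) / q` for at least one residue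
`a ∈ I q`. -/
def E (γ : ℝ) (ψ : ℕ → ℝ) (I : ℕ → Finset ℕ) (q : ℕ) : Set ℝ :=
  {x : ℝ | x ∈ Set.Icc (0 : ℝ) 1 ∧ ∃ a ∈ I q, nint (x - ((a : ℝ) + γ) / q) ≤ ψ q / q}

/-- The limsup of the sets `E_q`, `q ≥ 1`. -/
def limsupE (γ : ℝ) (ψ : ℕ → ℝ) (I : ℕ → Finset ℕ) : Set ℝ :=
  {x : ℝ | ∃ᶠ q : ℕ in atTop, 1 ≤ q ∧ x ∈ E γ ψ I q}

/-- `ψ ≥ 0` and `∑_{q < N} φ(q) ψ(q) / q ≥ F N` for all large `N`. -/
def RateAtLeast (F : ℕ → ℝ) (ψ : ℕ → ℝ) : Prop :=
  (∀ q, 0 ≤ ψ q) ∧
    ∀ᶠ N : ℕ in atTop, F N ≤ ∑ q ∈ Finset.range N, (Nat.totient q : ℝ) * ψ q / (q : ℝ)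

theorem limsupE_eq (γ : ℝ) (ψ : ℕ → ℝ) (I : ℕ → Finset ℕ) :
    limsupE γ ψ I = Pool.Agent.H685IDS.LS γ ψ I := by
  ext x
  constructor
  · intro hx
    obtain ⟨q, _, hq⟩ := hx.exists
    exact ⟨hq.1, hx.mono fun q h => ⟨h.1, h.2.2⟩⟩
  · rintro ⟨hx1, hx⟩
    exact hx.mono fun q h => ⟨h.1, hx1, h.2⟩

/-- (1) Let `γ` be rational and `ψ ≥ 0`. For all residues the limsup set has measure `0` or `1`; it has
measure `1` if `∑ φ(q) ψ(q) / q = ∞`; and there are `I q ⊆ {0, …, q - 1}` with `|I q| ≥ φ(q)` for all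
`q ≥ 1` such that the divergence of `∑ |I q| ψ(q) / q` implies that the limsup set has measure `1`.
(2) Let `F → ∞`. There is a positive function `θ` such that for every real `γ` with
`|γ - r / s| < θ s` for infinitely many `s` (with `r` depending on `s`), and for every `ψ` with rate of
divergence at least `F`, the limsup set for all residues has measure `1`.
(3) Let `F → ∞`. The real numbers `γ` such that for every `ψ` with rate of divergence at least `F` the
limsup set for all residues has measure `1` form a residual set.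
(4) For every `ψ ≥ 0` with `∑ φ(q) ψ(q) / q = ∞`, the real numbers `γ` such that the limsup set for all
residues has measure `1` form a residual set containing the rational numbers. -/
theorem result :
    (∀ (γ : ℚ) (ψ : ℕ → ℝ), (∀ q, 0 ≤ ψ q) →
      (volume (limsupE γ ψ Finset.range) = 0 ∨ volume (limsupE γ ψ Finset.range) = 1) ∧
      (¬ Summable (fun q : ℕ => (Nat.totient q : ℝ) * ψ q / (q : ℝ)) →
        volume (limsupE γ ψ Finset.range) = 1) ∧
      ∃ I : ℕ → Finset ℕ, (∀ q, I q ⊆ Finset.range q) ∧ (∀ q, 1 ≤ q → Nat.totient q ≤ (I q).card) ∧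
        (¬ Summable (fun q : ℕ => ((I q).card : ℝ) * ψ q / (q : ℝ)) → volume (limsupE γ ψ I) = 1)) ∧
    (∀ F : ℕ → ℝ, Tendsto F atTop atTop →
      ∃ θ : ℕ → ℝ, (∀ s, 0 < θ s) ∧ ∀ γ : ℝ,
        (∃ᶠ s : ℕ in atTop, 1 ≤ s ∧ ∃ r : ℤ, |γ - (r : ℝ) / s| < θ s) →
        ∀ ψ : ℕ → ℝ, RateAtLeast F ψ → volume (limsupE γ ψ Finset.range) = 1) ∧
    (∀ F : ℕ → ℝ, Tendsto F atTop atTop →
      {γ : ℝ | ∀ ψ : ℕ → ℝ, RateAtLeast F ψ → volume (limsupE γ ψ Finset.range) = 1} ∈ residual ℝ) ∧
    (∀ ψ : ℕ → ℝ, (∀ q, 0 ≤ ψ q) →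
      ¬ Summable (fun q : ℕ => (Nat.totient q : ℝ) * ψ q / (q : ℝ)) →
      {γ : ℝ | volume (limsupE γ ψ Finset.range) = 1} ∈ residual ℝ ∧
        ∀ γ : ℚ, volume (limsupE γ ψ Finset.range) = 1) := by
  refine ⟨fun γ ψ hψ => ⟨?_, ?_, ?_⟩, fun F hF => ?_, fun F hF => ?_, fun ψ hψ hdiv => ⟨?_, fun γ => ?_⟩⟩
  · rw [limsupE_eq]
    exact Pool.Agent.H685IDS.LS_zero_one γ hψ
  · intro h
    rw [limsupE_eq]
    exact Pool.Agent.H685IDS.LS_full γ hψ h
  · by_cases h : Summable (fun q : ℕ => (Nat.totient q : ℝ) * ψ q / (q : ℝ))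
    · refine ⟨fun q => (Finset.range q).filter (fun a => q.Coprime a), fun q => Finset.filter_subset _ _,
        fun q _ => (Nat.totient_eq_card_coprime q).le, fun hns => ?_⟩
      exact absurd (h.congr fun q => by rw [Nat.totient_eq_card_coprime]) hns
    · refine ⟨Finset.range, fun q => Finset.Subset.refl _, fun q _ => ?_, fun _ => ?_⟩
      · rw [Finset.card_range]
        exact Nat.totient_le q
      · rw [limsupE_eq]
        exact Pool.Agent.H685IDS.LS_full γ hψ h
  · obtain ⟨θ, hθ0, hθ⟩ := Pool.Agent.H685IDS.exists_theta hF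
    refine ⟨θ, hθ0, fun γ hγ ψ hψ => ?_⟩
    rw [limsupE_eq]
    exact Pool.Agent.H685IDS.A_full (hθ γ hγ) hψ.1 hψ.2
  · refine mem_of_superset (Pool.Agent.H685IDS.A_residual hF) fun γ hγ ψ hψ => ?_
    rw [limsupE_eq]
    exact Pool.Agent.H685IDS.A_full hγ hψ.1 hψ.2
  · have hF : Tendsto (fun N : ℕ => ∑ q ∈ Finset.range N, (Nat.totient q : ℝ) * ψ q / (q : ℝ))
        atTop atTop :=
      (not_summable_iff_tendsto_nat_atTop_of_nonneg fun q =>
        div_nonneg (mul_nonneg (Nat.cast_nonneg _) (hψ q)) (Nat.cast_nonneg _)).1 hdiv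
    refine mem_of_superset (Pool.Agent.H685IDS.A_residual hF) fun γ hγ => ?_
    change volume (limsupE γ ψ Finset.range) = 1
    rw [limsupE_eq]
    exact Pool.Agent.H685IDS.A_full hγ hψ (Eventually.of_forall fun N => le_rfl)
  · rw [limsupE_eq]
    exact Pool.Agent.H685IDS.LS_full γ hψ hdiv

end Pool.Agent.Results.MP_3a832c_nt.ResidualShifts
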